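import Pool.Agent.H21.CST.S1

/-!
# CST, row UNI: a polynomial of degree less than `m` vanishing on a simplex of size `m` is zero
-/

set_option autoImplicit false

namespace Pool.CST

open MvPolynomial

theorem mem_Sx {δ E : ℕ} {a : Fin δ → ℕ} : a ∈ Sx δ E ↔ ∑ i, a i < E := by
  unfold Sx
  rw [Finset.mem_filter]
  constructor
  · exact fun h => h.2
  · intro h
    refine ⟨?_, h⟩
    rw [Fintype.mem_piFinset]
    intro i
    rw [Finset.mem_range]
    exact lt_of_le_of_lt (Finset.single_le_sum (f := a) (fun _ _ => Nat.zero_le _)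
      (Finset.mem_univ i)) h

theorem uni_ev_cons {δ : ℕ} (q : MvPolynomial (Fin (δ + 1)) ℂ) (z : ℕ) (a : Fin δ → ℕ) :
    ev a ((finSuccEquiv ℂ δ q).eval (C (z : ℂ))) = ev (Fin.cons z a : Fin (δ + 1) → ℕ) q := by
  have h1 : (fun i => (((Fin.cons z a : Fin (δ + 1) → ℕ) i : ℕ) : ℂ))
      = Fin.cons (z : ℂ) (fun i => (a i : ℂ)) := by
    funext i
    refine Fin.cases ?_ (fun j => ?_) i
    · simp
    · simp
  unfold ev
  rw [h1, eval_eq_eval_mv_eval', Polynomial.eval_map, Polynomial.eval, Polynomial.hom_eval₂,
    RingHom.comp_id, eval_C]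

theorem uni_deg {δ : ℕ} (q : MvPolynomial (Fin (δ + 1)) ℂ) (z : ℂ) (m : ℕ)
    (hq : q.totalDegree < m) :
    ((finSuccEquiv ℂ δ q).eval (C z)).totalDegree < m := by
  rw [Polynomial.eval_eq_sum_range]
  have hm : 0 < m := lt_of_le_of_lt (Nat.zero_le _) hq
  refine lt_of_le_of_lt (totalDegree_finsetSum _ _) ?_
  rw [Finset.sup_lt_iff (by simpa using hm)]
  intro i _
  refine lt_of_le_of_lt ?_ hq
  refine (totalDegree_mul _ _).trans ?_
  have h1 : ((C z : MvPolynomial (Fin δ) ℂ) ^ i).totalDegree = 0 := by
    rw [← C_pow, totalDegree_C]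
  rw [h1, add_zero]
  by_cases hi : (finSuccEquiv ℂ δ q).coeff i = 0
  · rw [hi]; simp
  · have := totalDegree_coeff_finSuccEquiv_add_le q i hi
    omega

theorem t_uni : UNIStmt := by
  intro δ
  induction δ with
  | zero =>
    intro m p q hq h
    have h0 := h 0 (mem_Sx.2 (by simpa using lt_of_le_of_lt (Nat.zero_le _) hq))
    rw [eq_C_of_isEmpty q] at h0 ⊢
    unfold ev at h0
    rw [eval_C] at h0
    rw [h0, C_0]
  | succ δ ih =>
    intro m
    induction m with
    | zero => intro p q hq; exact absurd hq (Nat.not_lt_zero _)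
    | succ m ihm =>
      intro p q hq h
      have hr : (finSuccEquiv ℂ δ q).eval (C (p 0 : ℂ)) = 0 := by
        refine ih (m + 1) (Fin.tail p) _ (uni_deg q _ _ hq) ?_
        intro v hv
        rw [uni_ev_cons]
        have h1 : (Fin.cons (p 0) (Fin.tail p + v) : Fin (δ + 1) → ℕ) = p + Fin.cons 0 v := by
          funext i
          refine Fin.cases ?_ (fun j => ?_) i
          · simp
          · simp [Fin.tail]
        rw [h1]
        refine h _ (mem_Sx.2 ?_)
        rw [Fin.sum_univ_succ]
        simpa using mem_Sx.1 hv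
      obtain ⟨R, hR⟩ := Polynomial.dvd_iff_isRoot.2 hr
      by_cases hq0 : q = 0
      · exact hq0
      have hq1 : q = (X 0 - C (p 0 : ℂ)) * (finSuccEquiv ℂ δ).symm R := by
        apply (finSuccEquiv ℂ δ).injective
        rw [map_mul, AlgEquiv.apply_symm_apply, map_sub, finSuccEquiv_X_zero, hR]
        congr 2
        rw [finSuccEquiv_apply]
        simp
      set q' := (finSuccEquiv ℂ δ).symm R with hq'
      have hne : (X 0 - C (p 0 : ℂ) : MvPolynomial (Fin (δ + 1)) ℂ) ≠ 0 := by
        intro h0
        rw [h0, zero_mul] at hq1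
        exact hq0 hq1
      have hne' : q' ≠ 0 := by
        intro h0
        rw [h0, mul_zero] at hq1
        exact hq0 hq1
      have hd : 1 ≤ (X 0 - C (p 0 : ℂ) : MvPolynomial (Fin (δ + 1)) ℂ).totalDegree := by
        have h5 : coeff (Finsupp.single 0 1) (X 0 - C (p 0 : ℂ) : MvPolynomial (Fin (δ + 1)) ℂ)
            ≠ 0 := by
          have h6 : ¬ ((0 : Fin (δ + 1) →₀ ℕ) = Finsupp.single 0 1) := by
            intro h6
            have h7 := DFunLike.congr_fun h6 0
            simp at h7
          rw [coeff_sub, coeff_C, if_neg h6, sub_zero, coeff_X, if_pos rfl]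
          exact one_ne_zero
        have h8 := le_totalDegree (mem_support_iff.2 h5)
        simpa using h8
      have hd' := totalDegree_mul_of_isDomain hne hne'
      rw [← hq1] at hd'
      have := ihm (p + Fin.cons 1 0) q' (by omega) (by
        intro v hv
        have h2 := h (Fin.cons 1 0 + v) (mem_Sx.2 (by
          have h3 := mem_Sx.1 hv
          rw [Fin.sum_univ_succ] at h3 ⊢
          simp only [Pi.add_apply, Fin.cons_zero, Fin.cons_succ, Pi.zero_apply, zero_add]
          omega))
        rw [hq1, ← add_assoc] at h2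
        unfold ev at h2 ⊢
        rw [map_mul, mul_eq_zero] at h2
        rcases h2 with h2 | h2
        · exfalso
          simp only [map_sub, eval_X, eval_C, Pi.add_apply, Fin.cons_zero] at h2
          push_cast at h2
          have h4 : ((1 + v 0 : ℕ) : ℂ) = 0 := by
            push_cast
            linear_combination h2
          exact absurd (Nat.cast_eq_zero.1 h4) (by omega)
        · exact h2)
      exact absurd this hne'

end Pool.CST
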